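import Pool.Agent.W223.PL.Stms

/-! Subtask PL-PI: an interval. -/

namespace Pool.Agent.W928.PL

open Polynomial Pool.Agent.W223.HZ Pool.Agent.W223.PL

theorem eval_bd (m : ℕ) (P : ℤ[X]) (H L : ℝ) (hd : P.natDegree < m)
    (hc : ∀ k, |(P.coeff k : ℝ)| ≤ H) (hL : 1 ≤ L) (τ : ℤ) (hτ : |(τ : ℝ)| ≤ L) :
    |((P.eval τ : ℤ) : ℝ)| ≤ m * (H * L ^ m) := by
  have hH : 0 ≤ H := le_trans (abs_nonneg _) (hc 0)
  rw [eval_eq_sum_range' hd τ]
  push_cast
  refine (Finset.abs_sum_le_sum_abs _ _).trans ?_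
  have h1 : ∀ k ∈ Finset.range m, |(P.coeff k : ℝ) * (τ : ℝ) ^ k| ≤ H * L ^ m := by
    intro k hk
    have hk' : k ≤ m := (Finset.mem_range.mp hk).le
    rw [abs_mul, abs_pow]
    have h2 : |(τ : ℝ)| ^ k ≤ L ^ k := pow_le_pow_left₀ (abs_nonneg _) hτ k
    have h3 : L ^ k ≤ L ^ m := pow_le_pow_right₀ hL hk'
    exact mul_le_mul (hc k) (h2.trans h3) (by positivity) hH
  refine (Finset.sum_le_sum h1).trans ?_
  rw [Finset.sum_const, Finset.card_range, nsmul_eq_mul]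

theorem split (x y a b : ℤ) (hxy : IsCoprime x y) (hy : y ≠ 0) (h : x * a + y * b = 0) :
    ∃ g : ℤ, a = g * y ∧ b = -(g * x) := by
  have h1 : y ∣ x * a := ⟨-b, by linarith⟩
  have h2 : y ∣ a := hxy.symm.dvd_of_dvd_mul_left h1
  obtain ⟨g, hg⟩ := h2
  refine ⟨g, by rw [hg]; ring, ?_⟩
  have h3 : y * (b + g * x) = 0 := by
    rw [hg] at h
    linarith [h]
  rcases mul_eq_zero.mp h3 with h4 | h4
  · exact absurd h4 hy
  · linarith

/-- Growth: `(log D) ^ 3` against a power. -/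
theorem log_cube (D ε : ℝ) (hD : 1 ≤ D) (hε : 0 < ε) :
    (Real.log D) ^ 3 ≤ (3 / ε) ^ 3 * D ^ ε := by
  have hD0 : 0 ≤ D := by linarith
  have h1 := Real.log_le_rpow_div hD0 (show 0 < ε / 3 by positivity)
  have h0 : 0 ≤ Real.log D := Real.log_nonneg hD
  have h2 : (Real.log D) ^ 3 ≤ (D ^ (ε / 3) / (ε / 3)) ^ 3 := pow_le_pow_left₀ h0 h1 3
  refine h2.trans (le_of_eq ?_)
  have h3 : (D ^ (ε / 3)) ^ 3 = D ^ ε := by
    rw [← Real.rpow_natCast, ← Real.rpow_mul hD0]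
    congr 1
    push_cast
    ring
  rw [div_pow, h3, div_pow, div_pow]
  field_simp

/-- The bound from `CUQ`. -/
theorem cuq_bd (D c ε s : ℝ) (hD : 3 ≤ D) (hc : 1 ≤ c) (hε : 0 < ε) (hs : 1 ≤ s) (hsD : s ≤ D) :
    200000 * s * (c * Real.log D) ^ 2 * Real.log (120 * s * (c * Real.log D)) ≤
      (200000 * c ^ 2 * (Real.log (120 * c) + 2) * (3 / ε) ^ 3) * (s * D ^ ε) := by
  have hD1 : 1 ≤ D := by linarith
  have hD0 : 0 < D := by linarith
  have hl1 : 1 ≤ Real.log D := by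
    rw [Real.le_log_iff_exp_le hD0]
    have := Real.exp_one_lt_d9
    linarith
  have hl0 : 0 < Real.log D := by linarith
  have hlD : Real.log D ≤ D := (Real.log_le_sub_one_of_pos hD0).trans (by linarith)
  have hlc : 0 ≤ Real.log (120 * c) := Real.log_nonneg (by linarith)
  have h1 : Real.log (120 * s * (c * Real.log D)) ≤ (Real.log (120 * c) + 2) * Real.log D := by
    have h2 : 120 * s * (c * Real.log D) ≤ (120 * c) * (D * D) := by
      have : s * Real.log D ≤ D * D := mul_le_mul hsD hlD hl0.le hD0.le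
      calc 120 * s * (c * Real.log D) = 120 * c * (s * Real.log D) := by ring
        _ ≤ (120 * c) * (D * D) := by gcongr
    have h3 : Real.log (120 * s * (c * Real.log D)) ≤ Real.log ((120 * c) * (D * D)) :=
      Real.log_le_log (by positivity) h2
    refine h3.trans ?_
    rw [Real.log_mul (by positivity) (by positivity), Real.log_mul hD0.ne' hD0.ne']
    nlinarith
  have h4 := log_cube D ε hD1 hε
  have h5 : 0 ≤ Real.log (120 * c) + 2 := by linarith
  calc 200000 * s * (c * Real.log D) ^ 2 * Real.log (120 * s * (c * Real.log D))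
      ≤ 200000 * s * (c * Real.log D) ^ 2 * ((Real.log (120 * c) + 2) * Real.log D) := by
        gcongr
    _ = (200000 * c ^ 2 * (Real.log (120 * c) + 2)) * s * (Real.log D) ^ 3 := by ring
    _ ≤ (200000 * c ^ 2 * (Real.log (120 * c) + 2)) * s * ((3 / ε) ^ 3 * D ^ ε) := by
        gcongr
    _ = _ := by ring

theorem natDegree_G (m : ℕ) (_hm : 1 ≤ m) (A B : ℤ[X]) (N d₀ : ℤ) (hA : A.natDegree < m)
    (hB : B.natDegree < m) :
    (C N * (B ^ 2 - (C d₀ + X) * A ^ 2)).natDegree ≤ 2 * m := by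
  refine (natDegree_C_mul_le _ _).trans ?_
  refine (natDegree_sub_le _ _).trans (max_le ?_ ?_)
  · refine natDegree_pow_le.trans ?_
    omega
  · refine natDegree_mul_le.trans ?_
    have h1 : (C d₀ + X : ℤ[X]).natDegree ≤ 1 := by
      refine (natDegree_add_le _ _).trans (max_le ?_ ?_)
      · simp
      · exact natDegree_X_le
    have h2 : (A ^ 2).natDegree ≤ 2 * A.natDegree := natDegree_pow_le
    omega

theorem sz (x y d N : ℤ) (D V : ℝ) (hD : 1 ≤ D) (hV : 1 ≤ V) (hN : |(N : ℝ)| ≤ D)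
    (hd : (d : ℝ) ≤ 2 * D) (hx : 0 ≤ x) (hy0 : V ≤ y) (hy : (y : ℝ) < 2 * V)
    (h : x ^ 2 - d * y ^ 2 = N) : |(x : ℝ)| ≤ 3 * D * V := by
  have hx' : (0 : ℝ) ≤ x := by exact_mod_cast hx
  rw [abs_of_nonneg hx']
  have h1 : (x : ℝ) ^ 2 - d * (y : ℝ) ^ 2 = N := by exact_mod_cast h
  have hN' : (N : ℝ) ≤ D := (le_abs_self _).trans hN
  have hy1 : (0 : ℝ) ≤ y := by linarith
  have h2 : (y : ℝ) ^ 2 ≤ 4 * V ^ 2 := by nlinarith
  have h3 : (d : ℝ) * (y : ℝ) ^ 2 ≤ 2 * D * (4 * V ^ 2) := by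
    have : (d : ℝ) * (y : ℝ) ^ 2 ≤ 2 * D * (y : ℝ) ^ 2 := by gcongr
    refine this.trans ?_
    gcongr
  have h4 : (x : ℝ) ^ 2 ≤ (3 * D * V) ^ 2 := by
    have hV2 : 1 ≤ V ^ 2 := by nlinarith
    have hD2 : D ≤ D ^ 2 := by nlinarith
    have h5 : (x : ℝ) ^ 2 ≤ D + 8 * (D * V ^ 2) := by nlinarith
    have h6 : D ≤ D ^ 2 * V ^ 2 := by nlinarith
    have h7 : D * V ^ 2 ≤ D ^ 2 * V ^ 2 := by gcongr
    calc (x : ℝ) ^ 2 ≤ D + 8 * (D * V ^ 2) := h5
      _ ≤ 9 * (D ^ 2 * V ^ 2) := by linarith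
      _ = (3 * D * V) ^ 2 := by ring
  exact le_of_sq_le_sq h4 (by positivity)


/-- Size of `H = (2 m H₀) ^ (2 m)`, `H₀ = 8 D ^ (2 A + 2)`. -/
theorem H_bd (A m : ℕ) (D : ℝ) (hD : 16 * (m : ℝ) ≤ D) (hD1 : 1 ≤ D) :
    (2 * m * (8 * D ^ (2 * A + 2))) ^ (2 * m) ≤ D ^ (2 * m * (2 * A + 3)) := by
  have hD0 : 0 ≤ D := by linarith
  have h1 : 2 * (m : ℝ) * (8 * D ^ (2 * A + 2)) ≤ D ^ (2 * A + 3) := by
    calc 2 * (m : ℝ) * (8 * D ^ (2 * A + 2)) = 16 * (m : ℝ) * D ^ (2 * A + 2) := by ring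
      _ ≤ D * D ^ (2 * A + 2) := by gcongr
      _ = D ^ (2 * A + 3) := by ring
  calc (2 * (m : ℝ) * (8 * D ^ (2 * A + 2))) ^ (2 * m) ≤ (D ^ (2 * A + 3)) ^ (2 * m) :=
        pow_le_pow_left₀ (by positivity) h1 _
    _ = D ^ (2 * m * (2 * A + 3)) := by rw [← pow_mul]; ring_nf

theorem t (hV : StmtPV) (hM : StmtMIN) (hB : StmtBEZ) (hD : StmtDIV) (hQ : StmtCUQ)
    (hS : StmtSQR) : StmtPI := by
  intro A hA m hm
  obtain ⟨D₁, hD₁, hVm⟩ := hV A hA m hm
  have hm1 : 1 ≤ m := by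
    rw [hm]
    exact Nat.succ_le_of_lt (by positivity)
  have hmR : (1 : ℝ) ≤ m := by exact_mod_cast hm1
  have hm0 : (0 : ℝ) < m := by linarith
  -- exponents
  set c1 : ℕ := 2 * m * (2 * A + 3) with hc1
  set c2 : ℕ := (c1 + 1) * (2 * m + 2) with hc2
  have hc2pos : (0 : ℝ) < c2 := by
    have : 0 < c2 := by rw [hc2]; positivity
    exact_mod_cast this
  set ε : ℝ := 1 / (128 * m) with hε
  have hεpos : 0 < ε := by rw [hε]; positivity
  obtain ⟨Cd, hCd1, hCd⟩ := hD (ε / c2) (by positivity)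
  set cc : ℝ := (c1 : ℝ) + 3 with hcc
  have hcc1 : 1 ≤ cc := by rw [hcc]; have : (0 : ℝ) ≤ c1 := by positivity
                           linarith
  set K1 : ℝ := 200000 * cc ^ 2 * (Real.log (120 * cc) + 2) * (3 / ε) ^ 3 with hK1
  have hlogcc : 0 ≤ Real.log (120 * cc) := Real.log_nonneg (by linarith)
  have hK1pos : 0 ≤ K1 := by rw [hK1]; positivity
  refine ⟨max D₁ (16 * m), (m : ℝ) ^ 2 + K1 + 4 * m * Cd, ?_, ?_, ?_⟩
  · exact le_max_of_le_left hD₁
  · have h1 : (1 : ℝ) ≤ (m : ℝ) ^ 2 := by nlinarith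
    have h2 : 0 ≤ 4 * (m : ℝ) * Cd := by positivity
    linarith
  intro D V N 𝒟 hD0 hV1 hV2 hN0 hN hd hdd hex
  have hDD₁ : D₁ ≤ D := (le_max_left _ _).trans hD0
  have hDm : 16 * (m : ℝ) ≤ D := (le_max_right _ _).trans hD0
  have hD1 : 1 ≤ D := by linarith
  have hD3 : 3 ≤ D := by linarith
  have hDpos : 0 < D := by linarith
  set E : ℝ := 1 / (16 * (m : ℝ)) + 1 / (128 * m) with hE
  have hE0 : 0 ≤ E := by rw [hE]; positivity
  have hDE : 1 ≤ D ^ E := Real.one_le_rpow hD1 hE0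
  have hCc0 : 0 ≤ (m : ℝ) ^ 2 + K1 + 4 * m * Cd := by positivity
  rcases 𝒟.eq_empty_or_nonempty with h𝒟 | ⟨d₀, hd₀⟩
  · rw [h𝒟]
    simp only [Finset.card_empty, Nat.cast_zero]
    positivity
  -- choose the points
  have hex' : ∀ d : ℤ, ∃ x y : ℤ, d ∈ 𝒟 → 0 ≤ x ∧ V ≤ y ∧ (y : ℝ) < 2 * V ∧ IsCoprime x y ∧
      x ^ 2 - d * y ^ 2 = N := by
    intro d
    by_cases hdm : d ∈ 𝒟
    · obtain ⟨x, y, h⟩ := hex d hdm
      exact ⟨x, y, fun _ => h⟩
    · exact ⟨0, 0, fun h => absurd h hdm⟩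
  choose x y hxy using hex'
  set L : ℝ := D ^ (1 / (8 * (m : ℝ))) with hL
  have hL1 : 1 ≤ L := Real.one_le_rpow hD1 (by positivity)
  have hLm : L ^ m = D ^ ((1 : ℝ) / 8) := by
    rw [hL, ← Real.rpow_natCast, ← Real.rpow_mul hDpos.le]
    congr 1
    field_simp
  have hD8 : D ^ ((1 : ℝ) / 8) ≤ D := by
    calc D ^ ((1 : ℝ) / 8) ≤ D ^ (1 : ℝ) :=
          Real.rpow_le_rpow_of_exponent_le hD1 (by norm_num)
      _ = D := Real.rpow_one D
  have hND : |(N : ℝ)| ≤ D := hN.trans hD8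
  set T : Finset ℤ := 𝒟.image (fun d => d - d₀) with hT
  have hcardT : T.card = 𝒟.card := by
    rw [hT]
    exact Finset.card_image_of_injective _ (fun a b h => by simpa using h)
  have hTmem : ∀ τ ∈ T, τ + d₀ ∈ 𝒟 := by
    intro τ hτ
    rw [hT, Finset.mem_image] at hτ
    obtain ⟨d, hd1, hd2⟩ := hτ
    have : τ + d₀ = d := by linarith
    rw [this]
    exact hd1
  have hTL : ∀ τ ∈ T, |(τ : ℝ)| ≤ L := by
    intro τ hτ
    have h1 := hdd _ (hTmem τ hτ) _ hd₀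
    push_cast at h1
    simpa using h1
  have hdet : ∀ f : Fin m ⊕ Fin m → ℤ, (∀ i, f i ∈ T) →
      (Mat m (fun i => x (f i + d₀)) (fun i => y (f i + d₀)) f).det = 0 := by
    intro f hf
    have h1 := hVm D V d₀ (fun i => x (f i + d₀)) (fun i => y (f i + d₀)) (fun i => f i + d₀)
      hDD₁ hV1 hV2 (hd d₀ hd₀).1 (hd d₀ hd₀).2 (fun i => ?_) (fun i => ?_) (fun i => ?_)
      (fun i => ?_) (fun i => ?_)
    · simpa using h1
    · exact_mod_cast hd _ (hTmem _ (hf i))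
    · exact hdd _ (hTmem _ (hf i)) _ hd₀
    · exact ⟨(hxy _ (hTmem _ (hf i))).2.1, (hxy _ (hTmem _ (hf i))).2.2.1⟩
    · exact (hxy _ (hTmem _ (hf i))).1
    · have h2 := (hxy _ (hTmem _ (hf i))).2.2.2.2
      rw [h2]
      exact hN
  set H₀ : ℝ := 8 * D ^ (2 * A + 2) with hH₀
  have hDpow : ∀ k : ℕ, 1 ≤ D ^ k := fun k => one_le_pow₀ hD1
  have hH₀1 : 1 ≤ H₀ := by
    rw [hH₀]
    have := hDpow (2 * A + 2)
    linarith
  have hDA : D ^ (2 * A + 2) = D ^ (2 * A) * D * D := by ring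
  have hbd : ∀ τ ∈ T, ∀ j < m, |((x (τ + d₀) * τ ^ j : ℤ) : ℝ)| ≤ H₀ ∧
      |((y (τ + d₀) * τ ^ j : ℤ) : ℝ)| ≤ H₀ := by
    intro τ hτ j hj
    obtain ⟨h1, h2, h3, h4, h5⟩ := hxy _ (hTmem τ hτ)
    have hτj : |(τ : ℝ)| ^ j ≤ D := by
      calc |(τ : ℝ)| ^ j ≤ L ^ j := pow_le_pow_left₀ (abs_nonneg _) (hTL τ hτ) j
        _ ≤ L ^ m := pow_le_pow_right₀ hL1 hj.le
        _ ≤ D := by rw [hLm]; exact hD8
    have hx1 : |(x (τ + d₀) : ℝ)| ≤ 3 * D * V :=
      sz _ _ (τ + d₀) N D V hD1 hV1 hND (by exact_mod_cast (hd _ (hTmem τ hτ)).2) h1 h2 h3 h5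
    have hVD : V ≤ D ^ (2 * A) := hV2
    have hp := hDpow (2 * A)
    constructor
    · push_cast
      rw [abs_mul, abs_pow]
      calc |(x (τ + d₀) : ℝ)| * |(τ : ℝ)| ^ j ≤ (3 * D * V) * D := by gcongr
        _ ≤ (3 * D * D ^ (2 * A)) * D := by gcongr
        _ ≤ H₀ := by
          rw [hH₀, hDA]
          have : 0 ≤ D ^ (2 * A) * D * D := by positivity
          nlinarith
    · push_cast
      rw [abs_mul, abs_pow]
      have hy1 : |(y (τ + d₀) : ℝ)| ≤ 2 * V := by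
        rw [abs_of_nonneg (by linarith)]
        exact h3.le
      calc |(y (τ + d₀) : ℝ)| * |(τ : ℝ)| ^ j ≤ (2 * V) * D := by gcongr
        _ ≤ (2 * D ^ (2 * A)) * D := by gcongr
        _ ≤ H₀ := by
          rw [hH₀, hDA]
          have h9 : D ^ (2 * A) * D ≤ D ^ (2 * A) * D * D := by
            have : 0 ≤ D ^ (2 * A) * D := by positivity
            nlinarith
          have : 0 ≤ D ^ (2 * A) * D * D := by positivity
          nlinarith
  obtain ⟨T', hT', hcard', P, Q, hPQ, hPd, hQd, hPc, hQc, hcop, hrel⟩ :=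
    hM m hm1 T (fun τ => x (τ + d₀)) (fun τ => y (τ + d₀)) H₀ hH₀1 hbd hdet
  have hTT : (T.card : ℝ) ≤ (m : ℝ) ^ 2 + T'.card := by
    have h1 : T.card ≤ (T \ T').card + T'.card := by
      rw [Finset.card_sdiff_add_card_eq_card hT']
    have h2 : T.card ≤ m ^ 2 + T'.card := h1.trans (by omega)
    exact_mod_cast h2
  have hm2E : (m : ℝ) ^ 2 ≤ (m : ℝ) ^ 2 * D ^ E := by
    have : 0 ≤ (m : ℝ) ^ 2 := by positivity
    nlinarith
  rcases T'.eq_empty_or_nonempty with hT'e | ⟨τ₁, hτ₁⟩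
  · rw [hT'e] at hTT
    simp only [Finset.card_empty, Nat.cast_zero, add_zero] at hTT
    rw [← hcardT]
    have h1 : 0 ≤ K1 * D ^ E := by positivity
    have h2 : 0 ≤ 4 * m * Cd * D ^ E := by positivity
    nlinarith
  -- the key bound
  have key : (T'.card : ℝ) ≤ (K1 + 4 * m * Cd) * D ^ E := by
    set H : ℝ := (2 * m * H₀) ^ (2 * m) with hH
    have hHc1 : H ≤ D ^ c1 := by
      rw [hH, hH₀, hc1]
      exact H_bd A m D hDm hD1
    have hH1 : 1 ≤ H := by
      rw [hH]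
      apply one_le_pow₀
      nlinarith
    have hpt : ∀ τ ∈ T', 0 ≤ x (τ + d₀) ∧ V ≤ y (τ + d₀) ∧ (y (τ + d₀) : ℝ) < 2 * V ∧
        IsCoprime (x (τ + d₀)) (y (τ + d₀)) ∧
        x (τ + d₀) ^ 2 - (τ + d₀) * y (τ + d₀) ^ 2 = N := fun τ hτ =>
      hxy _ (hTmem τ (hT' hτ))
    have hy1 : ∀ τ ∈ T', 1 ≤ y (τ + d₀) := by
      intro τ hτ
      have h1 := (hpt τ hτ).2.1
      have h2 : (1 : ℝ) ≤ y (τ + d₀) := hV1.trans h1
      exact_mod_cast h2
    have hPne : P ≠ 0 := by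
      intro hP0
      rw [hP0, Polynomial.map_zero] at hcop
      have hu : IsUnit (Q.map (Int.castRingHom ℚ)) := isCoprime_zero_left.mp hcop
      have h1 := hrel τ₁ hτ₁
      rw [hP0, eval_zero, mul_zero, zero_add] at h1
      rcases mul_eq_zero.mp h1 with h2 | h2
      · have := hy1 τ₁ hτ₁
        omega
      · have h3 := hu.map (evalRingHom (τ₁ : ℚ))
        rw [coe_evalRingHom, eval_intCast_map] at h3
        simp only [Int.cast_id] at h3
        rw [h2] at h3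
        simp at h3
    have hg' : ∀ τ : ℤ, ∃ g : ℤ, τ ∈ T' → P.eval τ = g * y (τ + d₀) ∧
        Q.eval τ = -(g * x (τ + d₀)) := by
      intro τ
      by_cases hτ : τ ∈ T'
      · obtain ⟨g, hg⟩ := split _ _ _ _ (hpt τ hτ).2.2.2.1 (by have := hy1 τ hτ; omega)
          (hrel τ hτ)
        exact ⟨g, fun _ => hg⟩
      · exact ⟨0, fun h => absurd h hτ⟩
    choose g hg using hg'
    have hG : ∀ τ ∈ T', (N * g τ) ^ 2 =
        (C N * (Q ^ 2 - (C d₀ + X) * P ^ 2)).eval τ := by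
      intro τ hτ
      obtain ⟨h1, h2⟩ := hg τ hτ
      have h5 := (hpt τ hτ).2.2.2.2
      simp only [eval_mul, eval_C, eval_sub, eval_pow, eval_add, eval_X]
      rw [h1, h2]
      linear_combination (-(N * g τ ^ 2)) * h5
    have hDε : D ^ ε ≤ D ^ E := by
      apply Real.rpow_le_rpow_of_exponent_le hD1
      rw [hE, hε]
      have : 0 ≤ 1 / (16 * (m : ℝ)) := by positivity
      linarith
    have hDε1 : 1 ≤ D ^ ε := Real.one_le_rpow hD1 hεpos.le
    have hlog1 : 1 ≤ Real.log D := by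
      rw [Real.le_log_iff_exp_le hDpos]
      have := Real.exp_one_lt_d9
      linarith
    by_cases hns : NonSq (C N * (Q ^ 2 - (C d₀ + X) * P ^ 2))
    · have hLs : √L = D ^ (1 / (16 * (m : ℝ))) := by
        rw [Real.sqrt_eq_rpow, hL, ← Real.rpow_mul hDpos.le]
        congr 1
        field_simp
        norm_num
      have hs1 : 1 ≤ √L := by
        rw [hLs]
        exact Real.one_le_rpow hD1 (by positivity)
      have hsD : √L ≤ D := by
        rw [hLs]
        calc D ^ (1 / (16 * (m : ℝ))) ≤ D ^ (1 : ℝ) := by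
              apply Real.rpow_le_rpow_of_exponent_le hD1
              rw [div_le_one (by positivity)]
              linarith
          _ = D := Real.rpow_one D
      have hΛ2m : ((2 * m : ℕ) : ℝ) ≤ cc := by
        have h1 : 2 * m ≤ c1 := by
          rw [hc1]
          nlinarith
        have h2 : ((2 * m : ℕ) : ℝ) ≤ (c1 : ℝ) := by exact_mod_cast h1
        rw [hcc]
        linarith
      have hccl : cc ≤ cc * Real.log D := by nlinarith
      have hexp : Real.exp (cc * Real.log D) = D ^ (c1 + 3) := by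
        rw [mul_comm, ← Real.rpow_def_of_pos hDpos, ← Real.rpow_natCast, hcc]
        congr 1
        push_cast
        ring
      have h1 := hQ (C N * (Q ^ 2 - (C d₀ + X) * P ^ 2)) (2 * m)
        (natDegree_G m hm1 P Q N d₀ hPd hQd) hns L (cc * Real.log D) hL1 (hcc1.trans hccl)
        (hΛ2m.trans hccl) T' (fun τ hτ => hTL τ (hT' hτ)) (fun τ hτ => ?_)
      · refine h1.trans ((cuq_bd D cc ε (√L) hD3 hcc1 hεpos hs1 hsD).trans ?_)
        rw [← hK1]
        have h2 : √L * D ^ ε = D ^ E := by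
          rw [hLs, ← Real.rpow_add hDpos]
        rw [h2]
        have : 0 ≤ 4 * m * Cd * D ^ E := by positivity
        nlinarith
      · refine ⟨N * g τ, hG τ hτ, ?_⟩
        rw [hexp]
        push_cast
        rw [abs_mul]
        have h2 := eval_bd m P H L hPd hPc hL1 τ (hTL τ (hT' hτ))
        have h3 : |(g τ : ℝ)| ≤ |((P.eval τ : ℤ) : ℝ)| := by
          rw [(hg τ hτ).1]
          push_cast
          rw [abs_mul]
          have h4 : (1 : ℝ) ≤ |(y (τ + d₀) : ℝ)| := by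
            have h5 : (1 : ℝ) ≤ y (τ + d₀) := by exact_mod_cast hy1 τ hτ
            exact h5.trans (le_abs_self _)
          have h6 := abs_nonneg (g τ : ℝ)
          nlinarith
        have hmD : (m : ℝ) ≤ D := by linarith
        have hLD : L ^ m ≤ D := by rw [hLm]; exact hD8
        calc |(N : ℝ)| * |(g τ : ℝ)| ≤ D * ((m : ℝ) * (H * L ^ m)) := by
              apply mul_le_mul hND (h3.trans h2) (abs_nonneg _) hDpos.le
          _ ≤ D * (D * (D ^ c1 * D)) := by gcongr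
          _ = D ^ (c1 + 3) := by ring
    · obtain ⟨U, W, R, hR0, hUW, hRb⟩ := hB m P Q H hH1 hPd.le hQd.le hPc hQc hcop
      have hgR : ∀ τ ∈ T', g τ ∣ R := by
        intro τ hτ
        have h1 : (U * P + W * Q).eval τ = R := by rw [hUW, eval_C]
        rw [eval_add, eval_mul, eval_mul, (hg τ hτ).1, (hg τ hτ).2] at h1
        exact ⟨U.eval τ * y (τ + d₀) - W.eval τ * x (τ + d₀), by rw [← h1]; ring⟩
      have h1 := hS m P Q N d₀ R hPne hN0 hR0 hPd hQd hns T' g hgR hG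
      have hR1 : 1 ≤ R.natAbs := Int.natAbs_pos.mpr hR0
      have h2 := hCd R.natAbs hR1
      have h3 : ((R.natAbs : ℕ) : ℝ) ≤ D ^ c2 := by
        have h4 : ((R.natAbs : ℕ) : ℝ) = |(R : ℝ)| := by
          rw [Nat.cast_natAbs, Int.cast_abs]
        rw [h4]
        refine hRb.trans ?_
        have h5 : (2 * (m : ℝ) + 2) * H ≤ D ^ (c1 + 1) := by
          calc (2 * (m : ℝ) + 2) * H ≤ D * D ^ c1 := by
                apply mul_le_mul _ hHc1 (by linarith) hDpos.le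
                linarith
            _ = D ^ (c1 + 1) := by ring
        calc ((2 * (m : ℝ) + 2) * H) ^ (2 * m + 2) ≤ (D ^ (c1 + 1)) ^ (2 * m + 2) :=
              pow_le_pow_left₀ (by positivity) h5 _
          _ = D ^ c2 := by rw [← pow_mul]
      have h6 : ((R.natAbs : ℕ) : ℝ) ^ (ε / c2) ≤ D ^ ε := by
        calc ((R.natAbs : ℕ) : ℝ) ^ (ε / c2) ≤ (D ^ c2) ^ (ε / c2) :=
              Real.rpow_le_rpow (by positivity) h3 (by positivity)
          _ = D ^ ε := by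
            rw [← Real.rpow_natCast, ← Real.rpow_mul hDpos.le]
            congr 1
            field_simp
      have h7 : (T'.card : ℝ) ≤ 4 * m * (R.natAbs.divisors.card : ℝ) := by exact_mod_cast h1
      have h8 : (R.natAbs.divisors.card : ℝ) ≤ Cd * D ^ E := by
        refine h2.trans ?_
        have : 0 ≤ Cd := by linarith
        gcongr
        exact h6.trans hDε
      calc (T'.card : ℝ) ≤ 4 * m * (R.natAbs.divisors.card : ℝ) := h7
        _ ≤ 4 * m * (Cd * D ^ E) := by gcongr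
        _ ≤ (K1 + 4 * m * Cd) * D ^ E := by
          have : 0 ≤ K1 * D ^ E := by positivity
          nlinarith
  rw [← hcardT]
  nlinarith

end Pool.Agent.W928.PL
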